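import Mathlib

set_option autoImplicit false
open Complex Metric

namespace Pool.Agent.H.MP_c979e5_an

noncomputable def a : ℂ := 9 / 10
noncomputable def b : ℂ := ⟨284 / 1000, 1 / 100⟩

noncomputable def Q (z w : ℂ) : ℂ := 1 + a * (z + w) + b * (z ^ 2 + z * w + w ^ 2)

lemma schur {A B u : ℂ} (hB : ‖B‖ < 1) (h : ‖A - B * (starRingEnd ℂ) A‖ < 1 - ‖B‖ ^ 2)
    (hu : ‖u‖ ≤ 1) : 1 + A * u + B * u ^ 2 ≠ 0 := by
  intro h0
  have hu0 : u ≠ 0 := by
    rintro rfl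
    simp at h0
  set v := u⁻¹ with hv
  set v2 := B * u with hv2
  have huv : u * v = 1 := mul_inv_cancel₀ hu0
  have e1 : A = -(v + v2) := by
    rw [hv2]
    linear_combination v * h0 - (A + B * u) * huv
  have e2 : B = v * v2 := by
    rw [hv2]
    linear_combination -B * huv
  have hx : 1 ≤ ‖v‖ := by
    rw [hv, norm_inv]
    exact (one_le_inv₀ (norm_pos_iff.2 hu0)).2 hu
  have e3 : A - B * (starRingEnd ℂ) A =
      v2 * (((‖v‖ ^ 2 - 1 : ℝ)) : ℂ) - v * ((1 - ‖v2‖ ^ 2 : ℝ) : ℂ) := by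
    push_cast
    rw [← Complex.mul_conj', ← Complex.mul_conj', e1, e2]
    simp only [map_neg, map_add]
    ring
  have e4 : ‖B‖ = ‖v‖ * ‖v2‖ := by rw [← norm_mul, ← e2]
  have hy0 := norm_nonneg v2
  have hy : ‖v2‖ < 1 := by nlinarith
  have h5 := norm_sub_norm_le (v * ((1 - ‖v2‖ ^ 2 : ℝ) : ℂ)) (v2 * (((‖v‖ ^ 2 - 1 : ℝ)) : ℂ))
  clear_value v v2
  rw [norm_sub_rev, ← e3, norm_mul, norm_mul, Complex.norm_real, Complex.norm_real,
    Real.norm_of_nonneg (by nlinarith), Real.norm_of_nonneg (by nlinarith)] at h5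
  rw [e4] at h hB
  nlinarith [mul_nonneg (mul_nonneg (sub_nonneg.2 hx) (sub_nonneg.2 hy.le)) (sub_nonneg.2 hB.le)]

lemma nb : ‖b‖ ^ 2 = 80756 / 1000000 := by
  rw [Complex.sq_norm, Complex.normSq_apply]
  norm_num [b]

lemma diag {c : ℝ} (hc : c ^ 2 ≤ 1) {u : ℂ} (hu : ‖u‖ ≤ 1) :
    1 + (2 * a * c) * u + (b * (4 * c ^ 2 - 1)) * u ^ 2 ≠ 0 := by
  set τ : ℝ := 4 * c ^ 2 - 1 with hτ
  have t1 : -1 ≤ τ := by nlinarith [sq_nonneg c]
  have t2 : τ ≤ 3 := by linarith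
  have eB : b * (4 * c ^ 2 - 1) = b * τ := by rw [hτ]; push_cast; ring
  have hB2 : ‖b * τ‖ ^ 2 = 80756 / 1000000 * τ ^ 2 := by
    rw [norm_mul, mul_pow, nb, Complex.norm_real, Real.norm_eq_abs, sq_abs]
  have hB3 : ‖b * τ‖ ^ 2 < 1 := by rw [hB2]; nlinarith
  rw [eB]
  refine schur (by nlinarith [norm_nonneg (b * τ)]) ?_ hu
  refine lt_of_pow_lt_pow_left₀ 2 (by linarith) ?_
  have e : ‖2 * a * c - b * τ * (starRingEnd ℂ) (2 * a * c)‖ ^ 2 =
      81 / 100 * (τ + 1) * (1 - 568 / 1000 * τ + 80756 / 1000000 * τ ^ 2) := by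
    have : 2 * a * c - b * τ * (starRingEnd ℂ) (2 * a * c) = ((9 / 5 * c : ℝ) : ℂ) * (1 - b * τ) := by
      have : (2 * a * c : ℂ) = ((9 / 5 * c : ℝ) : ℂ) := by rw [a]; push_cast; ring
      rw [this, Complex.conj_ofReal]
      ring
    rw [this, norm_mul, mul_pow, Complex.norm_real, Real.norm_eq_abs, sq_abs, Complex.sq_norm,
      Complex.normSq_apply]
    simp only [b, sub_re, one_re, mul_re, ofReal_re, ofReal_im, sub_im, one_im, mul_im]
    rw [hτ]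
    ring
  rw [e, hB2]
  nlinarith [mul_nonneg (mul_nonneg (sub_nonneg.2 t1) (sub_nonneg.2 t2)) (sq_nonneg (τ - 6 / 5)),
    sq_nonneg (τ ^ 2 - 464 / 100 * τ + 492 / 100), sq_nonneg (τ - 27 / 10), sq_nonneg (τ - 3),
    sq_nonneg (τ ^ 2 - 4641 / 1000 * τ + 492 / 100)]

lemma Q_eq_norm {z w : ℂ} (hz : ‖z‖ ≤ 1) (h : ‖w‖ = ‖z‖) : Q z w ≠ 0 := by
  by_cases h0 : z = 0
  · have : w = 0 := by rw [h0, norm_zero] at h; exact norm_eq_zero.1 h
    simp [Q, h0, this]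
  obtain ⟨u, hu⟩ := IsAlgClosed.exists_pow_nat_eq (z * w) (n := 2) (by norm_num)
  have hz0 : 0 < ‖z‖ := norm_pos_iff.2 h0
  have hun : ‖u‖ = ‖z‖ := by
    have := congrArg norm hu
    rw [norm_pow, norm_mul, h, ← sq] at this
    exact (pow_left_inj₀ (norm_nonneg _) (norm_nonneg _) two_ne_zero).1 this
  have hu0 : u ≠ 0 := norm_pos_iff.1 (hun ▸ hz0)
  have h1 : (starRingEnd ℂ) (z / u) = w / u := by
    have h2 : z / u * (starRingEnd ℂ) (z / u) = 1 := by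
      rw [Complex.mul_conj', norm_div, hun, div_self hz0.ne']; simp
    have h3 : z / u * (w / u) = 1 := by
      rw [div_mul_div_comm, ← hu, ← sq, div_self (pow_ne_zero 2 hu0)]
    exact mul_left_cancel₀ (div_ne_zero h0 hu0) (h2.trans h3.symm)
  have h4 : z + w = 2 * ((z / u).re : ℂ) * u := by
    have := Complex.add_conj (z / u)
    rw [h1] at this
    push_cast at this
    rw [← this]
    field_simp
  have h5 : (z / u).re ^ 2 ≤ 1 := by
    have := Complex.abs_re_le_norm (z / u)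
    rw [norm_div, hun, div_self hz0.ne'] at this
    rw [← sq_abs]
    exact pow_le_one₀ (abs_nonneg _) this
  have h6 := diag h5 (hun ▸ hz)
  intro hQ
  apply h6
  have e : z ^ 2 + z * w + w ^ 2 = (z + w) ^ 2 - u ^ 2 := by rw [hu]; ring
  rw [Q, e, h4] at hQ
  linear_combination hQ

lemma b_ne : b ≠ 0 := by
  intro h
  have := nb
  rw [h] at this
  norm_num at this

lemma near_root (z w : ℂ) : ∃ r : ℂ, Q z r = 0 ∧ ‖b‖ * ‖r - w‖ ^ 2 ≤ ‖Q z w‖ := by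
  obtain ⟨s, hs⟩ := IsAlgClosed.exists_pow_nat_eq
    ((a + b * z) ^ 2 - 4 * b * (1 + a * z + b * z ^ 2)) (n := 2) (by norm_num)
  have hb := b_ne
  set r1 := (-(a + b * z) + s) / (2 * b) with h1
  set r2 := (-(a + b * z) - s) / (2 * b) with h2
  have e : ∀ x, Q z x = b * (r1 - x) * (r2 - x) := by
    intro x
    rw [h1, h2, Q]
    field_simp
    linear_combination hs
  rcases le_total ‖r1 - w‖ ‖r2 - w‖ with h | h
  · refine ⟨r1, by rw [e]; simp, ?_⟩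
    rw [e, norm_mul, norm_mul, sq, ← mul_assoc]
    gcongr
  · refine ⟨r2, by rw [e]; simp, ?_⟩
    rw [e, norm_mul, norm_mul, sq, ← mul_assoc]
    gcongr

lemma Q_symm (z w : ℂ) : Q z w = Q w z := by unfold Q; ring

lemma Q_ne {z w : ℂ} (hz : ‖z‖ ≤ 1) (hw : ‖w‖ ≤ 1) : Q z w ≠ 0 := by
  intro h0
  have hc : Continuous fun p : ℂ × ℂ => Q p.1 p.2 := by unfold Q; fun_prop
  have hK : IsCompact (closedBall (0 : ℂ × ℂ) 1 ∩ {p | Q p.1 p.2 = 0}) :=
    (isCompact_closedBall _ _).inter_right (isClosed_eq hc continuous_const)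
  obtain ⟨⟨x, y⟩, ⟨hp1, hp2⟩, hmin⟩ := hK.exists_isMinOn
    ⟨(z, w), by simpa [Prod.norm_def] using ⟨hz, hw⟩, h0⟩ continuous_norm.continuousOn
  have hp1' : ‖(x, y)‖ ≤ 1 := by simpa using hp1
  have key : ∀ x y : ℂ, Q x y = 0 → ‖y‖ < ‖x‖ → ∃ p : ℂ × ℂ, Q p.1 p.2 = 0 ∧ ‖p‖ < ‖x‖ := by
    intro x y h hlt
    have hb : 0 < ‖b‖ := norm_pos_iff.2 b_ne
    have hcont : ContinuousAt (fun t : ℝ => ‖Q (t * x) y‖) 1 := by unfold Q; fun_prop
    have hd : 0 < ‖x‖ - ‖y‖ := sub_pos.2 hlt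
    have hev := hcont.eventually_lt (g := fun _ => ‖b‖ * (‖x‖ - ‖y‖) ^ 2) continuousAt_const
      (by simp only [Complex.ofReal_one, one_mul, h, norm_zero]; positivity)
    obtain ⟨t, ht1, ht2⟩ := ((hev.filter_mono nhdsWithin_le_nhds).and
      (Ioo_mem_nhdsLT (zero_lt_one' ℝ))).exists
    obtain ⟨r, hr1, hr2⟩ := near_root (t * x) y
    refine ⟨(t * x, r), hr1, ?_⟩
    rw [Prod.norm_def, max_lt_iff]
    have hx0 : 0 < ‖x‖ := (norm_nonneg y).trans_lt hlt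
    constructor
    · simp only [norm_mul, Complex.norm_real, Real.norm_of_nonneg ht2.1.le]
      nlinarith [ht2.2]
    · have h3 : ‖r - y‖ < ‖x‖ - ‖y‖ :=
        lt_of_pow_lt_pow_left₀ 2 hd.le (lt_of_mul_lt_mul_left (hr2.trans_lt ht1) hb.le)
      have := norm_le_norm_add_norm_sub' r y
      simp only
      linarith
  have fin : ∀ p : ℂ × ℂ, Q p.1 p.2 = 0 → ¬ ‖p‖ < ‖(x, y)‖ := fun p hp hlt =>
    absurd (hmin ⟨by simpa using hlt.le.trans hp1', hp⟩) (not_le.2 hlt)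
  rcases lt_trichotomy ‖y‖ ‖x‖ with h | h | h
  · obtain ⟨p, h1, h2⟩ := key x y hp2 h
    exact fin p h1 (h2.trans_le (norm_fst_le (x, y)))
  · exact Q_eq_norm ((norm_fst_le (x, y)).trans hp1') h hp2
  · obtain ⟨p, h1, h2⟩ := key y x ((Q_symm y x).trans hp2) h
    exact fin p h1 (h2.trans_le (norm_snd_le (x, y)))

open Polynomial in
noncomputable def P : ℂ[X] := C b * X ^ 3 + C a * X ^ 2 + C 1 * X + C 0

lemma P_inj {z w : ℂ} (hz : ‖z‖ ≤ 1) (hw : ‖w‖ ≤ 1) (h : P.eval z = P.eval w) : z = w := by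
  have e : P.eval z - P.eval w = (z - w) * Q z w := by
    simp [P, Q]
    ring
  rw [h, sub_self] at e
  exact sub_eq_zero.1 ((mul_eq_zero.1 e.symm).resolve_right (Q_ne hz hw))

theorem main : P.natDegree = 3 ∧ P.coeff 0 = 0 ∧ P.coeff 1 = 1 ∧
    Set.InjOn (fun z => P.eval z) (ball (0 : ℂ) 1) ∧
    ¬ ball (0 : ℂ) (1 / (4 * Real.cos (Real.pi / 5) ^ 2)) ⊆ (fun z => P.eval z) '' ball (0 : ℂ) 1 := by
  refine ⟨Polynomial.natDegree_cubic b_ne, by simp [P], by simp [P, Polynomial.coeff_X],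
    fun z hz w hw h => P_inj (mem_ball_zero_iff.1 hz).le (mem_ball_zero_iff.1 hw).le h, fun h => ?_⟩
  set ζ : ℂ := ⟨-40 / 41, -9 / 41⟩ with hζ
  have hn : ‖ζ‖ = 1 := by
    have : ‖ζ‖ ^ 2 = 1 := by
      rw [Complex.sq_norm, Complex.normSq_apply]
      norm_num [hζ]
    nlinarith [norm_nonneg ζ]
  have hv : ‖P.eval ζ‖ < 381 / 1000 := by
    refine lt_of_pow_lt_pow_left₀ 2 (by norm_num) ?_
    rw [Complex.sq_norm, Complex.normSq_apply]
    simp [P, a, b, hζ, pow_succ]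
    norm_num
  have hR : (381 / 1000 : ℝ) < 1 / (4 * Real.cos (Real.pi / 5) ^ 2) := by
    rw [Real.cos_pi_div_five]
    have h5 : √5 < 2237 / 1000 := Real.sqrt_lt' (by norm_num) |>.2 (by norm_num)
    have h6 : √5 * √5 = 5 := Real.mul_self_sqrt (by norm_num)
    rw [lt_div_iff₀ (by positivity)]
    nlinarith
  obtain ⟨z, hz, he⟩ := h (mem_ball_zero_iff.2 (hv.trans hR))
  have := P_inj (mem_ball_zero_iff.1 hz).le hn.le he
  rw [this, mem_ball_zero_iff, hn] at hz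
  exact lt_irrefl _ hz

end Pool.Agent.H.MP_c979e5_an
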